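import Mathlib

/-!
# Interlaced subsequences of the basis of `X^n_{0,1}` need not be equivalent

The space `X^n_{0,1}` is the completion of `c_00` under the norm defined by the norming set `W`.
For `n = 1` we exhibit interlaced subsequences of the unit vector basis that are not equivalent.
-/

open Finset

noncomputable section

namespace Pool.Agent.Results.MP_7cd5bf_an.NotEquivalent

/-- Finitely supported real sequences, `c_00`. Only the coordinates `1, 2, ...` are used. -/
abbrev Vec := ℕ →₀ ℝ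

/-- `f < g`: the support of `f` lies before the support of `g`. -/
def Before (f g : Vec) : Prop := ∀ i ∈ f.support, ∀ j ∈ g.support, i < j

/-- `f 0 < f 1 < ... < f (d - 1)`. -/
def Successive (d : ℕ) (f : ℕ → Vec) : Prop := ∀ p q, p < q → q < d → Before (f p) (f q)

/-- The Schreier families. -/
def Schreier : ℕ → Set (Finset ℕ)
  | 0 => {F | F.card = 1}
  | 1 => {F | ∀ i ∈ F, F.card ≤ i}
  | (k + 2) => {F | ∃ (d : ℕ) (G : ℕ → Finset ℕ), (∀ q < d, G q ∈ Schreier (k + 1)) ∧
      (∀ p q, p < q → q < d → ∀ i ∈ G p, ∀ j ∈ G q, i < j) ∧ (∀ i ∈ G 0, d ≤ i) ∧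
      F = (range d).biUnion G}

/-- `α` is an `α`-average of size `l` of members of `V`. -/
def IsAvg (V : Set Vec) (l : ℕ) (α : Vec) : Prop :=
  2 ≤ l ∧ ∃ (d : ℕ) (f : ℕ → Vec), 1 ≤ d ∧ d ≤ l ∧ (∀ q < d, f q ∈ V) ∧ Successive d f ∧
    α = (1 / (l : ℝ)) • ∑ q ∈ range d, f q

/-- The minimum of the support. -/
def minS (f : Vec) : ℕ := sInf (f.support : Set ℕ)

/-- The maximum of the support. -/
def maxS (f : Vec) : ℕ := f.support.sup id

/-- `g` is an `S_n`-admissible sum of successive, very fast growing averages; `A l` is the set of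
available averages of size `l`. -/
def IsSch (n : ℕ) (A : ℕ → Set Vec) (g : Vec) : Prop :=
  ∃ (d : ℕ) (α : ℕ → Vec) (s : ℕ → ℕ), 1 ≤ d ∧ (∀ q < d, α q ∈ A (s q)) ∧ Successive d α ∧
    (range d).image (fun q => minS (α q)) ∈ Schreier n ∧
    (∀ q, q + 1 < d → s q < s (q + 1) ∧ maxS (α q) < s (q + 1)) ∧ g = ∑ q ∈ range d, α q

/-- The pair `(W_m, averages in W_m by size)`. -/
def WA (n : ℕ) : ℕ → Set Vec × (ℕ → Set Vec)
  | 0 => ({f | ∃ i, 1 ≤ i ∧ (f = Finsupp.single i 1 ∨ f = Finsupp.single i (-1))}, fun _ => ∅)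
  | (m + 1) => ((WA n m).1 ∪ {α | ∃ l, IsAvg (WA n m).1 l α} ∪ {g | IsSch n (WA n m).2 g},
      fun l => (WA n m).2 l ∪ {α | IsAvg (WA n m).1 l α})

/-- The norming set `W`. -/
def W (n : ℕ) : Set Vec := {f | ∃ m, f ∈ (WA n m).1}

/-- The action `f(x) = ∑ f_i x_i`. -/
def pair (f x : Vec) : ℝ := x.sum fun i c => f i * c

/-- The norm of `X^n_{0,1}` on `c_00`. -/
def nrm (n : ℕ) (x : Vec) : ℝ := sSup ((fun f => pair f x) '' W n)

/-- The vector `∑ a_m e_{i_m}`. -/
def comb (i : ℕ → ℕ) (a : Vec) : Vec := a.sum fun m c => c • Finsupp.single (i m) (1 : ℝ)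

/-- The subsequences `(e_{i_m})` and `(e_{j_m})` are equivalent in `X^n_{0,1}`. -/
def Equivalent (n : ℕ) (i j : ℕ → ℕ) : Prop :=
  ∃ C : ℝ, 1 ≤ C ∧ ∀ a : Vec, C⁻¹ * nrm n (comb j a) ≤ nrm n (comb i a) ∧
    nrm n (comb i a) ≤ C * nrm n (comb j a)

/-! ### Basic facts on the pairing -/

lemma pair_eq (f x : Vec) : pair f x = Finsupp.linearCombination ℝ (fun i => f i) x := by
  rw [pair, Finsupp.linearCombination_apply]
  refine Finset.sum_congr rfl fun i _ => ?_
  simp [mul_comm]

lemma pair_add_right (f x y : Vec) : pair f (x + y) = pair f x + pair f y := by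
  simp only [pair_eq, map_add]

lemma pair_smul_right (f : Vec) (c : ℝ) (x : Vec) : pair f (c • x) = c * pair f x := by
  simp only [pair_eq, map_smul, smul_eq_mul]

lemma pair_zero_right (f : Vec) : pair f 0 = 0 := by
  simp only [pair_eq, map_zero]

lemma pair_add_left (f g x : Vec) : pair (f + g) x = pair f x + pair g x := by
  simp only [pair, Finsupp.sum, Finsupp.add_apply, add_mul, Finset.sum_add_distrib]

lemma pair_smul_left (c : ℝ) (f x : Vec) : pair (c • f) x = c * pair f x := by
  simp only [pair, Finsupp.sum, Finsupp.smul_apply, smul_eq_mul, mul_assoc, Finset.mul_sum]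

lemma pair_zero_left (x : Vec) : pair 0 x = 0 := by
  simp [pair, Finsupp.sum]

lemma pair_sum_left (s : Finset ℕ) (f : ℕ → Vec) (x : Vec) :
    pair (∑ q ∈ s, f q) x = ∑ q ∈ s, pair (f q) x := by
  classical
  induction s using Finset.induction_on with
  | empty => simp [pair_zero_left]
  | insert a s ha ih => rw [sum_insert ha, sum_insert ha, pair_add_left, ih]

lemma pair_single (f : Vec) (p : ℕ) (c : ℝ) : pair f (Finsupp.single p c) = f p * c := by
  simp [pair]

/-- `f` acts as zero on `x` when the supports are disjoint -/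
lemma pair_eq_zero {f x : Vec} (h : ∀ i ∈ f.support, i ∉ x.support) : pair f x = 0 := by
  unfold pair Finsupp.sum
  refine Finset.sum_eq_zero fun i hi => ?_
  have : i ∉ f.support := fun h1 => h i h1 hi
  simp only [Finsupp.notMem_support_iff.mp this, zero_mul]

/-- `f` meets `x` -/
def Meets (f x : Vec) : Prop := ∃ i ∈ f.support, i ∈ x.support

lemma pair_of_not_meets {f x : Vec} (h : ¬ Meets f x) : pair f x = 0 :=
  pair_eq_zero fun i hi hx => h ⟨i, hi, hx⟩

/-! ### The norming set -/

variable {n : ℕ}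

lemma WA_mono_step (m : ℕ) : (WA n m).1 ⊆ (WA n (m + 1)).1 := by
  intro f hf
  exact Or.inl (Or.inl hf)

lemma WA_mono_step2 (m l : ℕ) : (WA n m).2 l ⊆ (WA n (m + 1)).2 l := by
  intro f hf
  exact Or.inl hf

lemma WA_mono {m k : ℕ} (h : m ≤ k) : (WA n m).1 ⊆ (WA n k).1 := by
  induction h with
  | refl => exact subset_rfl
  | step h ih => exact ih.trans (WA_mono_step _)

lemma WA_mono2 {m k : ℕ} (h : m ≤ k) (l : ℕ) : (WA n m).2 l ⊆ (WA n k).2 l := by
  induction h with
  | refl => exact subset_rfl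
  | step h ih => exact ih.trans (WA_mono_step2 _ _)

/-- averages of size `l` (at any level) -/
def Av (n l : ℕ) : Set Vec := {α | IsAvg (W n) l α}

lemma IsAvg.mono {V V' : Set Vec} (h : V ⊆ V') {l : ℕ} {α : Vec} (hα : IsAvg V l α) :
    IsAvg V' l α := by
  obtain ⟨hl, d, f, h1, h2, h3, h4, h5⟩ := hα
  exact ⟨hl, d, f, h1, h2, fun q hq => h (h3 q hq), h4, h5⟩

lemma IsSch.mono {A A' : ℕ → Set Vec} (h : ∀ l, A l ⊆ A' l) {g : Vec} (hg : IsSch n A g) :
    IsSch n A' g := by
  obtain ⟨d, α, s, h1, h2, h3⟩ := hg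
  exact ⟨d, α, s, h1, fun q hq => h _ (h2 q hq), h3⟩

lemma exists_level {d : ℕ} {f : ℕ → Vec} (h : ∀ q < d, f q ∈ W n) :
    ∃ m, ∀ q < d, f q ∈ (WA n m).1 := by
  classical
  choose! m hm using h
  refine ⟨(range d).sup m, fun q hq => ?_⟩
  exact WA_mono (Finset.le_sup (mem_range.mpr hq)) (hm q hq)

lemma av_level {l : ℕ} {α : Vec} (h : α ∈ Av n l) : ∃ m, α ∈ (WA n m).2 l := by
  obtain ⟨hl, d, f, h1, h2, h3, h4, h5⟩ := h
  obtain ⟨m, hm⟩ := exists_level h3
  exact ⟨m + 1, Or.inr ⟨hl, d, f, h1, h2, hm, h4, h5⟩⟩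

lemma av_mem_W {l : ℕ} {α : Vec} (h : α ∈ Av n l) : α ∈ W n := by
  obtain ⟨hl, d, f, h1, h2, h3, h4, h5⟩ := h
  obtain ⟨m, hm⟩ := exists_level h3
  exact ⟨m + 1, Or.inl (Or.inr ⟨l, hl, d, f, h1, h2, hm, h4, h5⟩)⟩

lemma sch_mem_W {g : Vec} (h : IsSch n (Av n) g) : g ∈ W n := by
  classical
  obtain ⟨d, α, s, h1, h2, h3⟩ := h
  have h4 : ∀ q < d, ∃ m, α q ∈ (WA n m).2 (s q) := fun q hq => av_level (h2 q hq)
  choose! m hm using h4
  refine ⟨(range d).sup m + 1, Or.inr ⟨d, α, s, h1, fun q hq => ?_, h3⟩⟩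
  exact WA_mono2 (Finset.le_sup (mem_range.mpr hq)) _ (hm q hq)

lemma single_mem_W {i : ℕ} (hi : 1 ≤ i) : Finsupp.single i (1 : ℝ) ∈ W n :=
  ⟨0, i, hi, Or.inl rfl⟩

/-- induction principle for the norming set -/
theorem W_induction {P : Vec → Prop}
    (h0 : ∀ i, 1 ≤ i → P (Finsupp.single i 1) ∧ P (Finsupp.single i (-1)))
    (hA : ∀ l α, IsAvg {f | f ∈ W n ∧ P f} l α → P α)
    (hS : ∀ g, IsSch n (fun l => {α | IsAvg {f | f ∈ W n ∧ P f} l α}) g → P g) :
    ∀ f ∈ W n, P f := by
  have key : ∀ m, (∀ f ∈ (WA n m).1, P f) ∧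
      ∀ l, ∀ α ∈ (WA n m).2 l, IsAvg {f | f ∈ W n ∧ P f} l α := by
    intro m
    induction m with
    | zero =>
      refine ⟨?_, fun l α h => absurd h (Set.notMem_empty _)⟩
      rintro f ⟨i, hi, rfl | rfl⟩
      · exact (h0 i hi).1
      · exact (h0 i hi).2
    | succ m ih =>
      have hsub : (WA n m).1 ⊆ {f | f ∈ W n ∧ P f} := fun f hf => ⟨⟨m, hf⟩, ih.1 f hf⟩
      constructor
      · rintro f ((hf | ⟨l, hf⟩) | hf)
        · exact ih.1 f hf
        · exact hA l f (hf.mono hsub)
        · exact hS f (hf.mono fun l α hα => ih.2 l α hα)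
      · rintro l α (hα | hα)
        · exact ih.2 l α hα
        · exact hα.mono hsub
  rintro f ⟨m, hm⟩
  exact (key m).1 f hm

/-- in a successive sum, the value at a point of one support is the value of that term -/
lemma sum_apply_of_mem {d : ℕ} {f : ℕ → Vec} (hs : Successive d f) {t : ℕ} (ht : t < d) {i : ℕ}
    (hi : i ∈ (f t).support) : (∑ q ∈ range d, f q) i = f t i := by
  rw [Finsupp.finsetSum_apply, Finset.sum_eq_single t]
  · intro q hq hne
    rw [← Finsupp.notMem_support_iff]
    intro h1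
    rcases lt_or_gt_of_ne hne with h | h
    · exact absurd (hs q t h ht i h1 i hi) (lt_irrefl _)
    · exact absurd (hs t q h (mem_range.mp hq) i hi i h1) (lt_irrefl _)
  · intro h
    exact absurd (mem_range.mpr ht) h

lemma sum_support {d : ℕ} {f : ℕ → Vec} {i : ℕ} (hi : i ∈ (∑ q ∈ range d, f q).support) :
    ∃ t < d, i ∈ (f t).support := by
  by_contra hc
  push Not at hc
  rw [Finsupp.mem_support_iff, Finsupp.finsetSum_apply] at hi
  apply hi
  exact Finset.sum_eq_zero fun q hq => Finsupp.notMem_support_iff.mp (hc q (mem_range.mp hq))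

/-- members of `W` are nonzero, supported in `[1, ∞)`, with coordinates at most one -/
theorem W_basic : ∀ f ∈ W n, f.support.Nonempty ∧ (∀ i ∈ f.support, 1 ≤ i) ∧ ∀ i, |f i| ≤ 1 := by
  have hav : ∀ l α, IsAvg {f | f ∈ W n ∧ (f.support.Nonempty ∧ (∀ i ∈ f.support, 1 ≤ i) ∧
      ∀ i, |f i| ≤ 1)} l α → (α.support.Nonempty ∧ (∀ i ∈ α.support, 1 ≤ i) ∧
      ∀ i, |α i| ≤ 1) := by
    rintro l α ⟨hl, d, f, h1, h2, h3, h4, rfl⟩
    have hl0 : (0 : ℝ) < l := by
      have : 0 < l := by omega
      exact_mod_cast this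
    have hl1 : (1 : ℝ) ≤ l := by
      have : 1 ≤ l := by omega
      exact_mod_cast this
    refine ⟨?_, ?_, ?_⟩
    · obtain ⟨i, hi⟩ := (h3 0 h1).2.1
      refine ⟨i, ?_⟩
      rw [Finsupp.mem_support_iff, Finsupp.smul_apply, sum_apply_of_mem h4 h1 hi, smul_eq_mul]
      exact mul_ne_zero (by positivity) (Finsupp.mem_support_iff.mp hi)
    · intro i hi
      obtain ⟨t, ht, hit⟩ := sum_support (Finsupp.support_smul hi)
      exact (h3 t ht).2.2.1 i hit
    · intro i
      rw [Finsupp.smul_apply, smul_eq_mul]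
      by_cases hi : i ∈ (∑ q ∈ range d, f q).support
      · obtain ⟨t, ht, hit⟩ := sum_support hi
        rw [sum_apply_of_mem h4 ht hit, abs_mul, abs_of_pos (by positivity)]
        have h5 := (h3 t ht).2.2.2 i
        have h6 : 1 / (l : ℝ) ≤ 1 := by
          rw [div_le_one hl0]
          exact hl1
        calc 1 / (l : ℝ) * |f t i| ≤ 1 * 1 := by
              apply mul_le_mul h6 h5 (abs_nonneg _) zero_le_one
          _ = 1 := one_mul 1
      · rw [Finsupp.notMem_support_iff.mp hi]
        simp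
  apply W_induction
  · intro i hi
    refine ⟨⟨⟨i, by simp⟩, ?_, ?_⟩, ⟨⟨i, by simp⟩, ?_, ?_⟩⟩
    · intro j hj
      have := Finsupp.support_single_subset hj
      rw [mem_singleton] at this
      omega
    · intro j
      rw [Finsupp.single_apply]
      split_ifs <;> simp
    · intro j hj
      have := Finsupp.support_single_subset hj
      rw [mem_singleton] at this
      omega
    · intro j
      rw [Finsupp.single_apply]
      split_ifs <;> simp
  · exact hav
  · rintro g ⟨d, α, s, h1, h2, h3, -, -, rfl⟩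
    have h5 : ∀ q < d, _ := fun q hq => hav (s q) (α q) (h2 q hq)
    refine ⟨?_, ?_, ?_⟩
    · obtain ⟨i, hi⟩ := (h5 0 h1).1
      refine ⟨i, ?_⟩
      rw [Finsupp.mem_support_iff, sum_apply_of_mem h3 h1 hi]
      exact Finsupp.mem_support_iff.mp hi
    · intro i hi
      obtain ⟨t, ht, hit⟩ := sum_support hi
      exact (h5 t ht).2.1 i hit
    · intro i
      by_cases hi : i ∈ (∑ q ∈ range d, α q).support
      · obtain ⟨t, ht, hit⟩ := sum_support hi
        rw [sum_apply_of_mem h3 ht hit]
        exact (h5 t ht).2.2 i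
      · rw [Finsupp.notMem_support_iff.mp hi]
        simp

lemma av_nonempty {l : ℕ} {α : Vec} (h : α ∈ Av n l) : α.support.Nonempty :=
  (W_basic α (av_mem_W h)).1

/-- what we use about a sum of averages, for `n = 1` -/
theorem sch_facts {g : Vec} {A : ℕ → Set Vec} (hA : ∀ l, A l ⊆ Av 1 l) (h : IsSch 1 A g) :
    ∃ (d : ℕ) (α : ℕ → Vec) (s : ℕ → ℕ), (∀ q < d, α q ∈ A (s q)) ∧ Successive d α ∧
      (∀ t < d, ∀ i ∈ (α t).support, d ≤ i) ∧
      (∀ u t, u < t → t < d → ∀ i ∈ (α u).support, i < s t) ∧ g = ∑ q ∈ range d, α q := by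
  classical
  obtain ⟨d, α, s, h1, h2, h3, h4, h5, h6⟩ := h
  have hne : ∀ q < d, (α q).support.Nonempty := fun q hq => av_nonempty (hA _ (h2 q hq))
  have hmin : ∀ q < d, minS (α q) ∈ (α q).support := by
    intro q hq
    have : minS (α q) ∈ ((α q).support : Set ℕ) := Nat.sInf_mem (hne q hq)
    exact this
  refine ⟨d, α, s, h2, h3, ?_, ?_, h6⟩
  · have hinj : Set.InjOn (fun q => minS (α q)) (range d : Finset ℕ) := by
      intro p hp q hq hpq
      rw [mem_coe, mem_range] at hp hq
      by_contra hne'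
      rcases lt_or_gt_of_ne hne' with h | h
      · have := h3 p q h hq _ (hmin p hp) _ (hmin q hq)
        simp only at hpq
        omega
      · have := h3 q p h hp _ (hmin q hq) _ (hmin p hp)
        simp only at hpq
        omega
    have hcard : ((range d).image fun q => minS (α q)).card = d := by
      rw [card_image_of_injOn hinj, card_range]
    intro t ht i hi
    have h7 : ((range d).image fun q => minS (α q)).card ≤ minS (α t) :=
      h4 _ (mem_image_of_mem _ (mem_range.mpr ht))
    rw [hcard] at h7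
    exact h7.trans (Nat.sInf_le hi)
  · intro u t hut ht i hi
    obtain ⟨v, rfl⟩ : ∃ v, t = v + 1 := ⟨t - 1, by omega⟩
    have h7 := (h5 v ht).2
    rcases Nat.lt_or_ge u v with h | h
    · obtain ⟨j, hj⟩ := hne v (by omega)
      have h8 := h3 u v h (by omega) i hi j hj
      have h9 : j ≤ maxS (α v) := Finset.le_sup (f := id) hj
      omega
    · have : u = v := by omega
      subst this
      have h9 : i ≤ maxS (α u) := Finset.le_sup (f := id) hi
      omega

lemma av_coord {l : ℕ} {α : Vec} (h : α ∈ Av n l) (i : ℕ) : α i ≤ 1 / (l : ℝ) := by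
  obtain ⟨hl, d, f, h1, h2, h3, h4, rfl⟩ := h
  have hl0 : (0 : ℝ) < l := by
    have : 0 < l := by omega
    exact_mod_cast this
  rw [Finsupp.smul_apply, smul_eq_mul]
  by_cases hi : i ∈ (∑ q ∈ range d, f q).support
  · obtain ⟨t, ht, hit⟩ := sum_support hi
    rw [sum_apply_of_mem h4 ht hit]
    have h5 := (W_basic (f t) (h3 t ht)).2.2 i
    have h6 := (le_abs_self _).trans h5
    calc 1 / (l : ℝ) * f t i ≤ 1 / (l : ℝ) * 1 := by
          apply mul_le_mul_of_nonneg_left h6 (by positivity)
      _ = 1 / (l : ℝ) := mul_one _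
  · rw [Finsupp.notMem_support_iff.mp hi, mul_zero]
    positivity

/-! ### Adding a vector in front -/

theorem front {z y : Vec} {A c η : ℝ} {p M P : ℕ} (hA : 0 ≤ A) (hc : 0 ≤ c) (hη : 0 ≤ η)
    (hp : 1 ≤ p) (hMP : M < P) (hz : ∀ f ∈ W 1, pair f z ≤ A) (hy : ∀ f ∈ W 1, pair f y ≤ A)
    (hb : ∀ s, ∀ β ∈ Av 1 s, pair β y ≤ c / s + η)
    (hz1 : ∀ i ∈ z.support, p ≤ i ∧ i ≤ M) (hy1 : ∀ i ∈ y.support, P ≤ i) :
    ∀ f ∈ W 1, pair f (z + y) ≤ A + 2 * (c / p + M * (c / P + η)) := by
  classical
  set τ : ℝ := c / p + M * (c / P + η) with hτdef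
  have hp0 : (0 : ℝ) < p := by exact_mod_cast hp
  have hP0 : (0 : ℝ) < P := by
    have : 0 < P := by omega
    exact_mod_cast this
  have hcP : 0 ≤ c / P + η := by positivity
  have hτ : 0 ≤ τ := by positivity
  -- functionals meeting only one of the two vectors
  have hone : ∀ f ∈ W 1, ¬ (Meets f z ∧ Meets f y) → pair f (z + y) ≤ A := by
    intro f hf h
    rw [pair_add_right]
    by_cases hfz : Meets f z
    · have hfy : ¬ Meets f y := fun h1 => h ⟨hfz, h1⟩
      rw [pair_of_not_meets hfy, add_zero]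
      exact hz f hf
    · rw [pair_of_not_meets hfz, zero_add]
      exact hy f hf
  -- an average of good functionals
  have havg : ∀ l α, IsAvg {f | f ∈ W 1 ∧ pair f (z + y) ≤ A + 2 * τ} l α →
      pair α (z + y) ≤ A + τ := by
    rintro l α ⟨hl, d, f, h1, h2, h3, h4, rfl⟩
    have hl0 : (0 : ℝ) < l := by
      have : 0 < l := by omega
      exact_mod_cast this
    rw [pair_smul_left, pair_sum_left]
    have h5 : ∀ q ∈ range d, pair (f q) (z + y) ≤
        A + (if Meets (f q) z ∧ Meets (f q) y then 2 * τ else 0) := by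
      intro q hq
      split_ifs with h6
      · exact (h3 q (mem_range.mp hq)).2
      · rw [add_zero]
        exact hone _ (h3 q (mem_range.mp hq)).1 h6
    have h6 : ((range d).filter fun q => Meets (f q) z ∧ Meets (f q) y).card ≤ 1 := by
      rw [Finset.card_le_one]
      intro a ha b hb
      rw [mem_filter, mem_range] at ha hb
      by_contra hne
      have key : ∀ a b, a < b → b < d → Meets (f a) y → Meets (f b) z → False := by
        rintro a b hab hbd ⟨j, hj, hjy⟩ ⟨i, hi, hiz⟩
        have := h4 a b hab hbd j hj i hi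
        have h7 := hy1 j hjy
        have h8 := (hz1 i hiz).2
        omega
      rcases lt_or_gt_of_ne hne with h | h
      · exact key a b h hb.1 ha.2.2 hb.2.1
      · exact key b a h ha.1 hb.2.2 ha.2.1
    have h7 : ∑ q ∈ range d, pair (f q) (z + y) ≤ d * A + 2 * τ := by
      refine (Finset.sum_le_sum h5).trans ?_
      rw [Finset.sum_add_distrib, Finset.sum_const, card_range, nsmul_eq_mul,
        ← Finset.sum_filter, Finset.sum_const, nsmul_eq_mul]
      have h8 : (((range d).filter fun q => Meets (f q) z ∧ Meets (f q) y).card : ℝ) ≤ 1 := by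
        exact_mod_cast h6
      nlinarith
    have hd : (d : ℝ) ≤ l := by exact_mod_cast h2
    have hl2 : (2 : ℝ) ≤ l := by exact_mod_cast hl
    rw [one_div, inv_mul_le_iff₀ hl0]
    nlinarith
  apply W_induction
  · intro i hi
    have key : ∀ c : ℝ, ¬ (Meets (Finsupp.single i c) z ∧ Meets (Finsupp.single i c) y) := by
      rintro c ⟨⟨j, hj, hjz⟩, ⟨k, hk, hky⟩⟩
      have h1 := Finsupp.support_single_subset hj
      have h2 := Finsupp.support_single_subset hk
      rw [mem_singleton] at h1 h2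
      have h3 := (hz1 j hjz).2
      have h4 := hy1 k hky
      omega
    constructor
    · refine (hone _ (single_mem_W hi) (key 1)).trans (by linarith)
    · refine (hone _ ⟨0, i, hi, Or.inr rfl⟩ (key (-1))).trans (by linarith)
  · intro l α hα
    exact (havg l α hα).trans (by linarith)
  · intro g hg
    have hsub : ∀ l, {α | IsAvg {f | f ∈ W 1 ∧ pair f (z + y) ≤ A + 2 * τ} l α} ⊆ Av 1 l :=
      fun l α hα => IsAvg.mono (fun f hf => hf.1) hα
    have hgW : g ∈ W 1 := sch_mem_W (hg.mono hsub)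
    by_cases hmeet : Meets g z ∧ Meets g y
    swap
    · exact (hone g hgW hmeet).trans (by linarith)
    obtain ⟨⟨i₀, hi₀g, hi₀z⟩, ⟨j₀, hj₀g, hj₀y⟩⟩ := hmeet
    obtain ⟨d, α, s, hα, hsucc, hd, hs, rfl⟩ := sch_facts hsub hg
    have hex : ∃ t, t < d ∧ Meets (α t) z := by
      obtain ⟨t, ht, hit⟩ := sum_support hi₀g
      exact ⟨t, ht, i₀, hit, hi₀z⟩
    have hexy : ∃ t, t < d ∧ Meets (α t) y := by
      obtain ⟨t, ht, hit⟩ := sum_support hj₀g
      exact ⟨t, ht, j₀, hit, hj₀y⟩
    -- first average meeting `z`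
    obtain ⟨ht0, i, hi, hiz⟩ := Nat.find_spec hex
    set t0 := Nat.find hex with ht0def
    have hbefore : ∀ t, t < t0 → ¬ Meets (α t) z := fun t ht h =>
      Nat.find_min hex ht ⟨ht.trans ht0, h⟩
    have hbefore' : ∀ t, t < t0 → ¬ Meets (α t) y := by
      rintro t ht ⟨j, hj, hjy⟩
      have h1 := hsucc t t0 ht ht0 j hj i hi
      have h2 := hy1 j hjy
      have h3 := (hz1 i hiz).2
      omega
    have hdM : (d : ℝ) ≤ M := by
      have h1 := hd t0 ht0 i hi
      have h2 := (hz1 i hiz).2
      exact_mod_cast h1.trans h2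
    by_cases hc1 : Meets (α t0) y
    · obtain ⟨j, hj, hjy⟩ := hc1
      rw [pair_sum_left]
      have h5 : ∀ t ∈ range d, pair (α t) (z + y) ≤
          (if t = t0 then A + τ else 0) + (c / P + η) := by
        intro t ht
        rw [mem_range] at ht
        rcases lt_trichotomy t t0 with h | h | h
        · rw [if_neg h.ne, pair_add_right, pair_of_not_meets (hbefore t h),
            pair_of_not_meets (hbefore' t h)]
          linarith
        · subst h
          rw [if_pos rfl]
          have := havg _ _ (hα _ ht)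
          linarith
        · rw [if_neg h.ne', pair_add_right]
          have h6 : ¬ Meets (α t) z := by
            rintro ⟨i', hi', hi'z⟩
            have h7 := hsucc t0 t h ht j hj i' hi'
            have h8 := hy1 j hjy
            have h9 := (hz1 i' hi'z).2
            omega
          rw [pair_of_not_meets h6, zero_add, zero_add]
          refine (hb _ _ (hsub _ (hα t ht))).trans ?_
          have h7 := hs t0 t h ht j hj
          have h8 := hy1 j hjy
          have h9 : (P : ℝ) ≤ s t := by exact_mod_cast h8.trans h7.le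
          have h10 : c / (s t : ℝ) ≤ c / P := div_le_div_of_nonneg_left hc hP0 h9
          linarith
      refine (Finset.sum_le_sum h5).trans ?_
      rw [Finset.sum_add_distrib, Finset.sum_ite_eq' (range d) t0, if_pos (mem_range.mpr ht0),
        Finset.sum_const, card_range, nsmul_eq_mul]
      have h6 : (d : ℝ) * (c / P + η) ≤ M * (c / P + η) := mul_le_mul_of_nonneg_right hdM hcP
      have h7 : 0 ≤ c / p := by positivity
      linarith
    · rw [pair_add_right, pair_sum_left _ _ y]
      have hgz := hz _ hgW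
      obtain ⟨ht1, j, hj, hjy⟩ := Nat.find_spec hexy
      set t1 := Nat.find hexy with ht1def
      have ht01 : t0 < t1 := by
        by_contra hcon
        rcases Nat.lt_or_ge t1 t0 with h | h
        · exact hbefore' t1 h ⟨j, hj, hjy⟩
        · have : t1 = t0 := by omega
          rw [this] at hj
          exact hc1 ⟨j, hj, hjy⟩
      have h5 : ∀ t ∈ range d, pair (α t) y ≤
          (if t = t1 then c / p else 0) + (c / P + η) := by
        intro t ht
        rw [mem_range] at ht
        by_cases hm : Meets (α t) y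
        · rcases lt_trichotomy t t1 with h | h | h
          · exact absurd ⟨ht, hm⟩ (Nat.find_min hexy h)
          · rw [if_pos h]
            refine (hb _ _ (hsub _ (hα t ht))).trans ?_
            have h7 := hs t0 t (by omega) ht i hi
            have h8 := (hz1 i hiz).1
            have h9 : (p : ℝ) ≤ s t := by exact_mod_cast h8.trans h7.le
            have h10 : c / (s t : ℝ) ≤ c / p := div_le_div_of_nonneg_left hc hp0 h9
            have h11 : 0 ≤ c / P := by positivity
            linarith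
          · rw [if_neg h.ne']
            refine (hb _ _ (hsub _ (hα t ht))).trans ?_
            have h7 := hs t1 t h ht j hj
            have h8 := hy1 j hjy
            have h9 : (P : ℝ) ≤ s t := by exact_mod_cast h8.trans h7.le
            have h10 : c / (s t : ℝ) ≤ c / P := div_le_div_of_nonneg_left hc hP0 h9
            linarith
        · rw [pair_of_not_meets hm]
          have : (0 : ℝ) ≤ if t = t1 then c / p else 0 := by
            split_ifs
            · positivity
            · exact le_rfl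
          linarith
      have h6 : ∑ t ∈ range d, pair (α t) y ≤ c / p + d * (c / P + η) := by
        refine (Finset.sum_le_sum h5).trans ?_
        rw [Finset.sum_add_distrib, Finset.sum_ite_eq' (range d) t1, if_pos (mem_range.mpr ht1),
          Finset.sum_const, card_range, nsmul_eq_mul]
      have h7 : (d : ℝ) * (c / P + η) ≤ M * (c / P + η) := mul_le_mul_of_nonneg_right hdM hcP
      linarith

/-! ### The two sequences -/

/-- the first sequence -/
def aa : ℕ → ℕ
  | 0 => 2
  | (k + 1) => aa k ^ 2 + 2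

/-- the second sequence -/
def bb (k : ℕ) : ℕ := aa k ^ 2 + 1

lemma aa_ge (k : ℕ) : k + 2 ≤ aa k := by
  induction k with
  | zero => simp [aa]
  | succ k ih =>
    rw [aa]
    nlinarith

lemma bb_eq (k : ℕ) : bb k + 1 = aa (k + 1) := by
  rw [bb, aa]

lemma aa_le_bb (k : ℕ) : aa k ≤ bb k := by
  have := aa_ge k
  rw [bb]
  nlinarith

lemma aa_strictMono : StrictMono aa := by
  apply strictMono_nat_of_lt_succ
  intro k
  have h1 := aa_le_bb k
  have h2 := bb_eq k
  omega

lemma bb_strictMono : StrictMono bb := by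
  apply strictMono_nat_of_lt_succ
  intro k
  have h1 := aa_le_bb (k + 1)
  have h2 := bb_eq k
  omega

/-- placing an index vector at positions `P` -/
def lift (P : ℕ → ℕ) (x : Vec) : Vec := Finsupp.mapDomain P x

lemma lift_add (P : ℕ → ℕ) (x y : Vec) : lift P (x + y) = lift P x + lift P y :=
  Finsupp.mapDomain_add

lemma lift_smul (P : ℕ → ℕ) (c : ℝ) (x : Vec) : lift P (c • x) = c • lift P x :=
  Finsupp.mapDomain_smul c x

lemma lift_single (P : ℕ → ℕ) (k : ℕ) (c : ℝ) :
    lift P (Finsupp.single k c) = Finsupp.single (P k) c := Finsupp.mapDomain_single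

lemma lift_zero (P : ℕ → ℕ) : lift P 0 = 0 := Finsupp.mapDomain_zero

lemma lift_support {P : ℕ → ℕ} {x : Vec} {i : ℕ} (h : i ∈ (lift P x).support) :
    ∃ k ∈ x.support, P k = i := by
  classical
  have := Finsupp.mapDomain_support h
  simpa using this

lemma comb_eq (i : ℕ → ℕ) (a : Vec) : comb i a = lift i a := by
  rw [comb, lift, Finsupp.mapDomain]
  refine Finset.sum_congr rfl fun k _ => ?_
  simp

/-- prepend -/
def cons {β : Type} (x : β) (f : ℕ → β) : ℕ → β
  | 0 => x
  | (k + 1) => f k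

lemma sum_cons (x : Vec) (f : ℕ → Vec) (d : ℕ) :
    ∑ q ∈ range (d + 1), cons x f q = x + ∑ q ∈ range d, f q := by
  rw [Finset.sum_range_succ', add_comm]
  rfl

lemma successive_cons {x : Vec} {f : ℕ → Vec} {d : ℕ} (h1 : Successive d f)
    (h2 : ∀ q < d, Before x (f q)) : Successive (d + 1) (cons x f) := by
  intro p q hpq hq
  match p, q with
  | _, 0 => omega
  | 0, (q + 1) => exact h2 q (by omega)
  | (p + 1), (q + 1) => exact h1 p q (by omega) (by omega)

/-- functionals supported up to `bb K` ignore vectors with indices beyond `K` -/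
lemma pair_lift_zero {f x : Vec} {K : ℕ} (hf : ∀ i ∈ f.support, i ≤ bb K)
    (hx : ∀ k ∈ x.support, K < k) : pair f (lift bb x) = 0 := by
  apply pair_eq_zero
  intro i hi hi'
  obtain ⟨k, hk, rfl⟩ := lift_support hi'
  have h1 := bb_strictMono (hx k hk)
  have h2 := hf _ hi
  omega

/-- functionals supported beyond `bb K` ignore vectors with indices up to `K` -/
lemma pair_lift_zero' {f x : Vec} {K : ℕ} (hf : ∀ i ∈ f.support, bb K < i)
    (hx : ∀ k ∈ x.support, k ≤ K) : pair f (lift bb x) = 0 := by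
  apply pair_eq_zero
  intro i hi hi'
  obtain ⟨k, hk, rfl⟩ := lift_support hi'
  have h1 := bb_strictMono.monotone (hx k hk)
  have h2 := hf _ hi
  omega

/-- one block of level `m` -/
def SS (m : ℕ) : Prop := ∀ ε : ℝ, 0 < ε → ∀ N : ℕ, ∃ (x : Vec) (K : ℕ), N < K ∧
  (∀ k ∈ x.support, N < k ∧ k ≤ K) ∧ (∀ f ∈ W 1, pair f (lift aa x) ≤ 1 + ε) ∧
  (∀ s, ∀ β ∈ Av 1 s, pair β (lift aa x) ≤ 3 / s + ε) ∧
  ∃ F ∈ W 1, (∀ i ∈ F.support, bb N < i ∧ i ≤ bb K) ∧ 1 + m / 2 ≤ pair F (lift bb x)

/-- a sum of `l` blocks of level `m` -/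
def YY (m l : ℕ) : Prop := ∀ ε : ℝ, 0 < ε → ∃ N₀ : ℕ, ∀ N ≥ N₀, ∃ (x : Vec) (K : ℕ), N < K ∧
  (∀ k ∈ x.support, N < k ∧ k ≤ K) ∧ (∀ f ∈ W 1, pair f (lift aa x) ≤ 1 + ε) ∧
  (∀ s, ∀ β ∈ Av 1 s, pair β (lift aa x) ≤ 3 * l / s + ε) ∧
  ∃ G : ℕ → Vec, (∀ q < l, G q ∈ W 1) ∧ Successive l G ∧
    (∀ q < l, ∀ i ∈ (G q).support, bb N < i ∧ i ≤ bb K) ∧
    l * (1 + m / 2) ≤ pair (∑ q ∈ range l, G q) (lift bb x)

/-- a sum of `D` sums of blocks of level `m` -/
def VV (m D : ℕ) : Prop := ∀ ε : ℝ, 0 < ε → ∀ N S₀ : ℕ, ∃ (x : Vec) (K : ℕ), N < K ∧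
  (∀ k ∈ x.support, N < k ∧ k ≤ K) ∧
  (∀ (d : ℕ) (f : ℕ → Vec), (∀ t < d, f t ∈ W 1) → Successive d f →
    ∑ t ∈ range d, pair (f t) (lift aa x) ≤ (1 + ε) * (D + d)) ∧
  ∃ (α : ℕ → Vec) (s : ℕ → ℕ), (∀ q < D, α q ∈ Av 1 (s q)) ∧ Successive D α ∧
    (∀ q < D, S₀ < s q) ∧ (∀ q, q + 1 < D → s q < s (q + 1) ∧ maxS (α q) < s (q + 1)) ∧
    (∀ q < D, ∀ i ∈ (α q).support, bb N < i ∧ i ≤ bb K) ∧
    D * (1 + m / 2) ≤ pair (∑ q ∈ range D, α q) (lift bb x)

lemma SS_zero : SS 0 := by
  intro ε hε N
  refine ⟨Finsupp.single (N + 1) 1, N + 1, by omega, ?_, ?_, ?_, Finsupp.single (bb (N + 1)) 1,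
    single_mem_W (by rw [bb]; omega), ?_, ?_⟩
  · intro k hk
    have := Finsupp.support_single_subset hk
    rw [mem_singleton] at this
    omega
  · intro f hf
    rw [lift_single, pair_single, mul_one]
    have := (le_abs_self _).trans ((W_basic f hf).2.2 (aa (N + 1)))
    linarith
  · intro s β hβ
    rw [lift_single, pair_single, mul_one]
    have h1 := av_coord hβ (aa (N + 1))
    have hs : (0 : ℝ) ≤ 1 / (s : ℝ) := by positivity
    have h2 : (3 : ℝ) / s = 3 * (1 / s) := by ring
    rw [h2]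
    linarith
  · intro i hi
    have := Finsupp.support_single_subset hi
    rw [mem_singleton] at this
    rw [this]
    exact ⟨bb_strictMono (by omega), le_rfl⟩
  · rw [lift_single, pair_single]
    simp

/-- positions beyond any bound -/
lemma exists_large (r : ℝ) : ∃ N : ℕ, ∀ k ≥ N, r ≤ aa k := by
  obtain ⟨N, hN⟩ := exists_nat_ge r
  refine ⟨N, fun k hk => hN.trans ?_⟩
  have := aa_ge k
  exact_mod_cast (by omega : N ≤ aa k)

lemma YY_zero (m : ℕ) : YY m 0 := by
  intro ε hε
  refine ⟨0, fun N _ => ⟨0, N + 1, by omega, ?_, ?_, ?_, fun _ => 0, ?_, ?_, ?_, ?_⟩⟩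
  · intro k hk
    simp at hk
  · intro f _
    rw [lift_zero, pair_zero_right]
    linarith
  · intro s β _
    rw [lift_zero, pair_zero_right]
    simp only [Nat.cast_zero, mul_zero, zero_div, zero_add]
    exact hε.le
  · intro q hq
    omega
  · intro p q _ hq
    omega
  · intro q hq
    omega
  · simp [lift_zero, pair_zero_right]

lemma YY_succ {m l : ℕ} (hS : SS m) (hY : YY m l) : YY m (l + 1) := by
  intro ε hε
  obtain ⟨Na, hNa⟩ := exists_large (24 * l / ε + 1)
  refine ⟨Na, fun N hN => ?_⟩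
  obtain ⟨x1, K1, hNK1, hx1, hf1, hb1, F, hF, hFs, hFv⟩ := hS (ε / 4) (by positivity) N
  -- parameters for the tail
  set M : ℝ := (aa K1 : ℝ) with hM
  have hMpos : 0 < M := by
    have := aa_ge K1
    rw [hM]
    exact_mod_cast (by omega : 0 < aa K1)
  obtain ⟨N1, hN1⟩ := hY (min (ε / 4) (ε / (16 * M))) (by positivity)
  obtain ⟨N2, hN2⟩ := exists_large (48 * l * M / ε + 1)
  obtain ⟨x2, K2, hNK2, hx2, hf2, hb2, G, hG, hGs, hGi, hGv⟩ :=
    hN1 (max K1 (max N1 N2)) (by omega)
  set N' := max K1 (max N1 N2) with hN'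
  have hK1N' : K1 ≤ N' := le_max_left _ _
  have hN2N' : N2 ≤ N' := (le_max_right _ _).trans (le_max_right _ _)
  have hsup1 : ∀ i ∈ (lift aa x1).support, aa (N + 1) ≤ i ∧ i ≤ aa K1 := by
    intro i hi
    obtain ⟨k, hk, rfl⟩ := lift_support hi
    exact ⟨aa_strictMono.monotone (hx1 k hk).1, aa_strictMono.monotone (hx1 k hk).2⟩
  have hsup2 : ∀ i ∈ (lift aa x2).support, aa (N' + 1) ≤ i := by
    intro i hi
    obtain ⟨k, hk, rfl⟩ := lift_support hi
    exact aa_strictMono.monotone (hx2 k hk).1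
  have hε2 : (min (ε / 4) (ε / (16 * M)) : ℝ) ≤ ε / 4 := min_le_left _ _
  have hε3 : (min (ε / 4) (ε / (16 * M)) : ℝ) ≤ ε / (16 * M) := min_le_right _ _
  have hfr := front (z := lift aa x1) (y := lift aa x2) (A := 1 + ε / 4) (c := 3 * l)
    (η := min (ε / 4) (ε / (16 * M))) (p := aa (N + 1)) (M := aa K1) (P := aa (N' + 1))
    (by positivity) (by positivity) (by positivity) (by have := aa_ge (N + 1); omega)
    (aa_strictMono (by omega)) hf1 (fun f hf => (hf2 f hf).trans (by linarith))
    (fun s β hβ => hb2 s β hβ) hsup1 hsup2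
  refine ⟨x1 + x2, K2, by omega, ?_, ?_, ?_, cons F G, ?_, ?_, ?_, ?_⟩
  · intro k hk
    rcases mem_union.mp (Finsupp.support_add hk) with h | h
    · have := hx1 k h
      omega
    · have := hx2 k h
      omega
  · intro f hf
    rw [lift_add]
    refine (hfr f hf).trans ?_
    have hp : (24 * l / ε + 1 : ℝ) ≤ aa (N + 1) := hNa (N + 1) (by omega)
    have hp0 : (0 : ℝ) < aa (N + 1) := lt_of_lt_of_le (by positivity) hp
    have h1 : (3 * l : ℝ) / aa (N + 1) ≤ ε / 8 := by
      rw [div_le_iff₀ hp0]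
      have h2 : (24 * l / ε : ℝ) ≤ aa (N + 1) := by linarith
      rw [div_le_iff₀ hε] at h2
      linarith
    have hP : (48 * l * M / ε + 1 : ℝ) ≤ aa (N' + 1) := hN2 (N' + 1) (by omega)
    have hP0 : (0 : ℝ) < aa (N' + 1) := lt_of_lt_of_le (by positivity) hP
    have h3 : M * ((3 * l : ℝ) / aa (N' + 1)) ≤ ε / 16 := by
      rw [mul_div_assoc', div_le_iff₀ hP0]
      have h2 : (48 * l * M / ε : ℝ) ≤ aa (N' + 1) := by linarith
      rw [div_le_iff₀ hε] at h2
      linarith
    have h4 : M * min (ε / 4) (ε / (16 * M)) ≤ ε / 16 := by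
      calc M * min (ε / 4) (ε / (16 * M)) ≤ M * (ε / (16 * M)) :=
            mul_le_mul_of_nonneg_left hε3 hMpos.le
        _ = ε / 16 := by field_simp
    have h5 : M * ((3 * l : ℝ) / aa (N' + 1) + min (ε / 4) (ε / (16 * M))) ≤ ε / 8 := by
      rw [mul_add]
      linarith
    linarith
  · intro s β hβ
    rw [lift_add, pair_add_right]
    have h1 := hb1 s β hβ
    have h2 := hb2 s β hβ
    have h3 : (3 * ((l + 1 : ℕ) : ℝ) / s) = 3 / s + 3 * l / s := by
      push_cast
      ring
    rw [h3]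
    linarith
  · intro q hq
    match q with
    | 0 => exact hF
    | (q + 1) => exact hG q (by omega)
  · apply successive_cons hGs
    intro q hq i hi j hj
    have h1 := (hFs i hi).2
    have h2 := (hGi q hq j hj).1
    have h3 := bb_strictMono.monotone hK1N'
    omega
  · intro q hq i hi
    match q with
    | 0 =>
      have h1 := hFs i hi
      have h2 := bb_strictMono.monotone (show K1 ≤ K2 by omega)
      exact ⟨h1.1, by omega⟩
    | (q + 1) =>
      have h1 := hGi q (by omega) i hi
      have h2 := bb_strictMono.monotone (show N ≤ N' by omega)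
      exact ⟨by omega, h1.2⟩
  · rw [sum_cons, lift_add, pair_add_left, pair_add_right, pair_add_right]
    have h1 : pair F (lift bb x2) = 0 := pair_lift_zero (K := K1) (fun i hi => (hFs i hi).2)
      (fun k hk => by have := (hx2 k hk).1; omega)
    have h2 : pair (∑ q ∈ range l, G q) (lift bb x1) = 0 := by
      rw [pair_sum_left]
      refine Finset.sum_eq_zero fun q hq => ?_
      refine pair_lift_zero' (K := N') (fun i hi => (hGi q (mem_range.mp hq) i hi).1)
        (fun k hk => by have := (hx1 k hk).2; omega)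
    rw [h1, h2]
    push_cast
    linarith

lemma YY_all {m : ℕ} (hS : SS m) : ∀ l, YY m l := by
  intro l
  induction l with
  | zero => exact YY_zero m
  | succ l ih => exact YY_succ hS ih

lemma VV_zero (m : ℕ) : VV m 0 := by
  intro ε hε N S₀
  refine ⟨0, N + 1, by omega, ?_, ?_, fun _ => 0, fun _ => 0, ?_, ?_, ?_, ?_, ?_, ?_⟩
  · intro k hk
    simp at hk
  · intro d f _ _
    simp only [lift_zero, pair_zero_right, sum_const_zero]
    positivity
  · intro q hq
    omega
  · intro p q _ hq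
    omega
  · intro q hq
    omega
  · intro q hq
    omega
  · intro q hq
    omega
  · simp [lift_zero, pair_zero_right]

/-- the staircase estimate, adding one vector in front -/
lemma staircase {X1 X2 : Vec} {A : ℝ} (hA : 0 ≤ A) {D Q : ℕ} (h1 : ∀ f ∈ W 1, pair f X1 ≤ A)
    (h2 : ∀ (d : ℕ) (f : ℕ → Vec), (∀ t < d, f t ∈ W 1) → Successive d f →
      ∑ t ∈ range d, pair (f t) X2 ≤ A * (D + d))
    (hX1 : ∀ i ∈ X1.support, i ≤ Q) (hX2 : ∀ i ∈ X2.support, Q < i)
    (d : ℕ) (f : ℕ → Vec) (hf : ∀ t < d, f t ∈ W 1) (hs : Successive d f) :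
    ∑ t ∈ range d, pair (f t) (X1 + X2) ≤ A * ((D + 1 : ℕ) + d) := by
  classical
  simp only [pair_add_right, Finset.sum_add_distrib]
  by_cases hex : ∃ t, t < d ∧ Meets (f t) X1
  swap
  · push Not at hex
    have h3 : ∑ t ∈ range d, pair (f t) X1 = 0 :=
      Finset.sum_eq_zero fun t ht => pair_of_not_meets (hex t (mem_range.mp ht))
    rw [h3, zero_add]
    refine (h2 d f hf hs).trans ?_
    push_cast
    nlinarith
  · -- the last index meeting `X1`
    obtain ⟨T, ⟨hTd, hTm⟩, hTmax⟩ : ∃ T, (T < d ∧ Meets (f T) X1) ∧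
        ∀ t, (t < d ∧ Meets (f t) X1) → t ≤ T := by
      obtain ⟨t₀, ht₀⟩ := hex
      have hfin : ((range d).filter fun t => Meets (f t) X1).Nonempty :=
        ⟨t₀, by rw [mem_filter, mem_range]; exact ht₀⟩
      refine ⟨((range d).filter fun t => Meets (f t) X1).max' hfin, ?_, ?_⟩
      · have := Finset.max'_mem _ hfin
        rw [mem_filter, mem_range] at this
        exact this
      · intro t ht
        exact Finset.le_max' _ _ (by rw [mem_filter, mem_range]; exact ht)
    obtain ⟨r, rfl⟩ : ∃ r, d = T + (r + 1) := ⟨d - T - 1, by omega⟩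
    have h3 : ∑ t ∈ range (T + (r + 1)), pair (f t) X1 ≤ (T + 1) * A := by
      have h4 : ∑ t ∈ range (T + (r + 1)), pair (f t) X1 = ∑ t ∈ range (T + 1), pair (f t) X1 := by
        symm
        apply Finset.sum_subset
        · intro t ht
          rw [mem_range] at ht ⊢
          omega
        · intro t ht ht'
          rw [mem_range] at ht ht'
          refine pair_of_not_meets fun hm => ?_
          have := hTmax t ⟨ht, hm⟩
          omega
      rw [h4]
      calc ∑ t ∈ range (T + 1), pair (f t) X1 ≤ ∑ t ∈ range (T + 1), A := by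
            refine Finset.sum_le_sum fun t ht => h1 _ (hf t ?_)
            rw [mem_range] at ht
            omega
        _ = (T + 1) * A := by
            rw [sum_const, card_range, nsmul_eq_mul]
            push_cast
            ring
    have h5 : ∑ t ∈ range (T + (r + 1)), pair (f t) X2 ≤ A * (D + ((r + 1 : ℕ) : ℝ)) := by
      rw [Finset.sum_range_add]
      have h6 : ∑ t ∈ range T, pair (f t) X2 = 0 := by
        refine Finset.sum_eq_zero fun t ht => pair_of_not_meets ?_
        rintro ⟨j, hj, hj2⟩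
        obtain ⟨i, hi, hi1⟩ := hTm
        have h7 := hs t T (mem_range.mp ht) hTd j hj i hi
        have h8 := hX2 j hj2
        have h9 := hX1 i hi1
        omega
      rw [h6, zero_add]
      refine h2 (r + 1) (fun u => f (T + u)) (fun t ht => hf _ (by omega)) ?_
      intro p q hpq hq
      exact hs (T + p) (T + q) (by omega) (by omega)
    have h10 : (0 : ℝ) ≤ A := hA
    push_cast at h5 ⊢
    linarith

lemma maxS_le {f : Vec} {Q : ℕ} (h : ∀ i ∈ f.support, i ≤ Q) : maxS f ≤ Q :=
  Finset.sup_le fun i hi => h i hi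

lemma VV_succ {m D : ℕ} (hS : SS m) (hV : VV m D) : VV m (D + 1) := by
  intro ε hε N S₀
  obtain ⟨N0, hN0⟩ := YY_all hS (S₀ + 2) ε hε
  obtain ⟨x1, K1, hNK1, hx1, hf1, hb1, G, hG, hGs, hGi, hGv⟩ := hN0 (max N N0) (le_max_right _ _)
  set N1 := max N N0 with hN1
  have hNN1 : N ≤ N1 := le_max_left _ _
  obtain ⟨x2, K2, hNK2, hx2, hst, α, s, hα, hαs, hαS, hαg, hαi, hαv⟩ :=
    hV ε hε K1 (max (S₀ + 2) (bb K1))
  set α0 : Vec := (1 / ((S₀ + 2 : ℕ) : ℝ)) • ∑ q ∈ range (S₀ + 2), G q with hα0
  have hα0av : α0 ∈ Av 1 (S₀ + 2) :=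
    ⟨by omega, S₀ + 2, G, by omega, le_rfl, hG, hGs, hα0⟩
  have hα0i : ∀ i ∈ α0.support, bb N < i ∧ i ≤ bb K1 := by
    intro i hi
    obtain ⟨t, ht, hit⟩ := sum_support (Finsupp.support_smul hi)
    have h1 := hGi t ht i hit
    have h2 := bb_strictMono.monotone hNN1
    exact ⟨by omega, h1.2⟩
  refine ⟨x1 + x2, K2, by omega, ?_, ?_, cons α0 α, cons (S₀ + 2) s, ?_, ?_, ?_, ?_, ?_, ?_⟩
  · intro k hk
    rcases mem_union.mp (Finsupp.support_add hk) with h | h
    · have := hx1 k h
      omega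
    · have := hx2 k h
      omega
  · intro d f hf hs
    rw [lift_add]
    refine staircase (A := 1 + ε) (Q := aa K1) (by positivity) hf1 hst ?_ ?_ d f hf hs
    · intro i hi
      obtain ⟨k, hk, rfl⟩ := lift_support hi
      exact aa_strictMono.monotone (hx1 k hk).2
    · intro i hi
      obtain ⟨k, hk, rfl⟩ := lift_support hi
      exact aa_strictMono (hx2 k hk).1
  · intro q hq
    match q with
    | 0 => exact hα0av
    | (q + 1) => exact hα q (by omega)
  · apply successive_cons hαs
    intro q hq i hi j hj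
    have h1 := (hα0i i hi).2
    have h2 := (hαi q hq j hj).1
    omega
  · intro q hq
    match q with
    | 0 =>
      change S₀ < S₀ + 2
      omega
    | (q + 1) =>
      have := hαS q (by omega)
      have h2 : S₀ + 2 ≤ max (S₀ + 2) (bb K1) := le_max_left _ _
      change S₀ < s q
      omega
  · intro q hq
    match q with
    | 0 =>
      have h1 := hαS 0 (by omega)
      have h2 : S₀ + 2 ≤ max (S₀ + 2) (bb K1) := le_max_left _ _
      have h3 : bb K1 ≤ max (S₀ + 2) (bb K1) := le_max_right _ _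
      have h4 : maxS α0 ≤ bb K1 := maxS_le fun i hi => (hα0i i hi).2
      change S₀ + 2 < s 0 ∧ maxS α0 < s 0
      omega
    | (q + 1) => exact hαg q (by omega)
  · intro q hq i hi
    match q with
    | 0 =>
      have h1 := hα0i i hi
      have h2 := bb_strictMono.monotone (show K1 ≤ K2 by omega)
      exact ⟨h1.1, by omega⟩
    | (q + 1) =>
      have h1 := hαi q (by omega) i hi
      have h2 := bb_strictMono.monotone (show N ≤ K1 by omega)
      exact ⟨by omega, h1.2⟩
  · rw [sum_cons, lift_add, pair_add_left, pair_add_right, pair_add_right]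
    have h1 : pair α0 (lift bb x2) = 0 := pair_lift_zero (K := K1) (fun i hi => (hα0i i hi).2)
      (fun k hk => (hx2 k hk).1)
    have h2 : pair (∑ q ∈ range D, α q) (lift bb x1) = 0 := by
      rw [pair_sum_left]
      refine Finset.sum_eq_zero fun q hq => ?_
      exact pair_lift_zero' (K := K1) (fun i hi => (hαi q (mem_range.mp hq) i hi).1)
        (fun k hk => (hx1 k hk).2)
    have h3 : 1 + (m : ℝ) / 2 ≤ pair α0 (lift bb x1) := by
      rw [hα0, pair_smul_left, one_div, ← div_eq_inv_mul, le_div_iff₀ (by positivity)]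
      linarith
    rw [h1, h2]
    push_cast
    linarith

lemma VV_all {m : ℕ} (hS : SS m) : ∀ D, VV m D := by
  intro D
  induction D with
  | zero => exact VV_zero m
  | succ D ih => exact VV_succ hS ih

lemma SS_succ {m : ℕ} (hS : SS m) : SS (m + 1) := by
  intro ε hε N
  set ε' : ℝ := min ε 1 / 4 with hε'
  have hε'0 : 0 < ε' := by positivity
  have hε'1 : ε' ≤ 1 / 4 := by
    have := min_le_right ε 1
    linarith
  have hε'2 : ε' ≤ ε / 4 := by
    have := min_le_left ε 1
    linarith
  obtain ⟨Na, hNa⟩ := exists_large (100 / ε + 1)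
  set k := max N Na + 1 with hk
  have hNk : N < k := by
    have := le_max_left N Na
    omega
  have hak : (100 / ε + 1 : ℝ) ≤ aa k := hNa k (by
    have := le_max_right N Na
    omega)
  have hak0 : (0 : ℝ) < aa k := lt_of_lt_of_le (by positivity) hak
  have haε : 1 / (aa k : ℝ) ≤ ε / 100 := by
    rw [div_le_iff₀ hak0]
    have h2 : (100 / ε : ℝ) ≤ aa k := by linarith
    rw [div_le_iff₀ hε] at h2
    linarith
  set D := aa k ^ 2 with hD
  have hD0 : (0 : ℝ) < D := by
    rw [hD]
    push_cast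
    positivity
  -- the tail
  obtain ⟨w, K, hkK, hw, hst, α, s, hα, hαs, hαS, hαg, hαi, hαv⟩ :=
    VV_all hS D ε' hε'0 k (bb k + 2)
  have hsupw : ∀ i ∈ (lift aa ((1 / (D : ℝ)) • w)).support, aa (k + 1) ≤ i := by
    intro i hi
    obtain ⟨q, hq, rfl⟩ := lift_support hi
    exact aa_strictMono.monotone (hw q (Finsupp.support_smul hq)).1
  have hfw : ∀ f ∈ W 1, pair f (lift aa ((1 / (D : ℝ)) • w)) ≤ (1 + ε') * (1 + 1 / D) := by
    intro f hf
    have h1 := hst 1 (fun _ => f) (fun _ _ => hf) (by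
      intro p q hpq hq
      omega)
    rw [Finset.sum_range_one] at h1
    rw [lift_smul, pair_smul_right]
    calc 1 / (D : ℝ) * pair f (lift aa w) ≤ 1 / (D : ℝ) * ((1 + ε') * (D + (1 : ℕ))) :=
          mul_le_mul_of_nonneg_left h1 (by positivity)
      _ = (1 + ε') * (1 + 1 / D) := by
          push_cast
          field_simp
  have hbw : ∀ s, ∀ β ∈ Av 1 s, pair β (lift aa ((1 / (D : ℝ)) • w)) ≤
      (1 + ε') / s + (1 + ε') / D := by
    rintro l β ⟨hl, d, f, h1, h2, h3, h4, rfl⟩
    have hl0 : (0 : ℝ) < l := by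
      have : 0 < l := by omega
      exact_mod_cast this
    have h5 := hst d f h3 h4
    rw [pair_smul_left, pair_sum_left, lift_smul]
    simp only [pair_smul_right]
    rw [← Finset.mul_sum]
    have hdl : (d : ℝ) ≤ l := by exact_mod_cast h2
    calc 1 / (l : ℝ) * (1 / (D : ℝ) * ∑ t ∈ range d, pair (f t) (lift aa w))
        ≤ 1 / (l : ℝ) * (1 / (D : ℝ) * ((1 + ε') * (D + d))) := by
          apply mul_le_mul_of_nonneg_left _ (by positivity)
          exact mul_le_mul_of_nonneg_left h5 (by positivity)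
      _ ≤ 1 / (l : ℝ) * (1 / (D : ℝ) * ((1 + ε') * (D + l))) := by
          apply mul_le_mul_of_nonneg_left _ (by positivity)
          apply mul_le_mul_of_nonneg_left _ (by positivity)
          apply mul_le_mul_of_nonneg_left _ (by positivity)
          linarith
      _ = (1 + ε') / l + (1 + ε') / D := by
          field_simp
  have hDa : (D : ℝ) = (aa k : ℝ) ^ 2 := by
    rw [hD]
    push_cast
    ring
  have hakD : 1 / (D : ℝ) ≤ 1 / (aa k : ℝ) := by
    apply one_div_le_one_div_of_le hak0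
    rw [hDa]
    have : (1 : ℝ) ≤ aa k := by
      have := aa_ge k
      exact_mod_cast (by omega : 1 ≤ aa k)
    nlinarith
  have hak1 : (1 : ℝ) ≤ aa k := by
    have := aa_ge k
    exact_mod_cast (by omega : 1 ≤ aa k)
  have hA1 : (1 : ℝ) ≤ (1 + ε') * (1 + 1 / D) := by
    have : (0 : ℝ) ≤ 1 / D := by positivity
    nlinarith
  have hinva : 1 / (aa k : ℝ) ≤ 1 := by
    rw [div_le_one hak0]
    exact hak1
  have hfr := front (z := lift aa (Finsupp.single k 1)) (y := lift aa ((1 / (D : ℝ)) • w))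
    (A := (1 + ε') * (1 + 1 / D)) (c := 1 + ε') (η := (1 + ε') / D) (p := aa k) (M := aa k)
    (P := aa (k + 1)) (by positivity) (by positivity) (by positivity)
    (by have := aa_ge k; omega) (aa_strictMono (by omega))
    (by
      intro f hf
      rw [lift_single, pair_single, mul_one]
      have := (le_abs_self _).trans ((W_basic f hf).2.2 (aa k))
      linarith) hfw hbw
    (by
      intro i hi
      rw [lift_single] at hi
      have := Finsupp.support_single_subset hi
      rw [mem_singleton] at this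
      rw [this]
      exact ⟨le_rfl, le_rfl⟩) hsupw
  refine ⟨Finsupp.single k 1 + (1 / (D : ℝ)) • w, K, by omega, ?_, ?_, ?_,
    ∑ q ∈ range (D + 1), cons ((1 / ((2 : ℕ) : ℝ)) • Finsupp.single (bb k) 1) α q, ?_, ?_, ?_⟩
  · intro q hq
    rcases mem_union.mp (Finsupp.support_add hq) with h | h
    · have := Finsupp.support_single_subset h
      rw [mem_singleton] at this
      omega
    · have := hw q (Finsupp.support_smul h)
      omega
  · intro f hf
    rw [lift_add]
    refine (hfr f hf).trans ?_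
    have hP : (aa k : ℝ) ^ 2 ≤ aa (k + 1) := by
      have h := bb_eq k
      unfold bb at h
      have : aa k ^ 2 ≤ aa (k + 1) := by omega
      exact_mod_cast this
    have hP0 : (0 : ℝ) < aa (k + 1) := lt_of_lt_of_le (by positivity) hP
    have h1 : (aa k : ℝ) * ((1 + ε') / aa (k + 1)) ≤ (1 + ε') * (1 / aa k) := by
      rw [mul_one_div, mul_div_assoc', div_le_div_iff₀ hP0 hak0]
      nlinarith
    have h2 : (aa k : ℝ) * ((1 + ε') / D) = (1 + ε') * (1 / aa k) := by
      rw [hDa]
      field_simp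
    have h3 : (1 + ε') / (aa k : ℝ) = (1 + ε') * (1 / aa k) := by ring
    rw [mul_add (aa k : ℝ), h2, h3]
    set u : ℝ := 1 / (aa k : ℝ) with hu
    have hu0 : 0 ≤ u := by positivity
    have h4 : (1 + ε') * (1 + 1 / (D : ℝ)) ≤ (1 + ε') * (1 + u) :=
      mul_le_mul_of_nonneg_left (by linarith) (by positivity)
    have h5 : ε' * u ≤ 1 / 4 * u := mul_le_mul_of_nonneg_right hε'1 hu0
    nlinarith
  · intro l β hβ
    rw [lift_add, pair_add_right, lift_single, pair_single, mul_one]
    have h1 := av_coord hβ (aa k)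
    have h2 := hbw l β hβ
    have hl0 : (0 : ℝ) ≤ 1 / (l : ℝ) := by positivity
    have h3 : (1 + ε') / (l : ℝ) = (1 + ε') * (1 / l) := by ring
    have h4 : (1 + ε') / (D : ℝ) = (1 + ε') * (1 / D) := by ring
    have h5 : (3 : ℝ) / l = 3 * (1 / l) := by ring
    rw [h3, h4] at h2
    rw [h5]
    have h6 : (1 + ε') * (1 / (l : ℝ)) ≤ 2 * (1 / l) :=
      mul_le_mul_of_nonneg_right (by linarith) hl0
    have h7 : (1 + ε') * (1 / (D : ℝ)) ≤ 2 * (1 / D) :=
      mul_le_mul_of_nonneg_right (by linarith) (by positivity)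
    linarith
  · -- the functional belongs to `W`
    apply sch_mem_W
    have hhalf : ((1 / ((2 : ℕ) : ℝ)) • Finsupp.single (bb k) 1 : Vec) ∈ Av 1 2 := by
      refine ⟨le_rfl, 1, fun _ => Finsupp.single (bb k) 1, le_rfl, by norm_num, fun _ _ =>
        single_mem_W (by rw [bb]; omega), ?_, ?_⟩
      · intro p q hpq hq
        omega
      · rw [Finset.sum_range_one]
    have hhs : ∀ i ∈ ((1 / ((2 : ℕ) : ℝ)) • Finsupp.single (bb k) (1 : ℝ) : Vec).support,
        i = bb k := by
      intro i hi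
      have := Finsupp.support_single_subset (Finsupp.support_smul hi)
      rwa [mem_singleton] at this
    refine ⟨D + 1, cons ((1 / ((2 : ℕ) : ℝ)) • Finsupp.single (bb k) 1) α, cons 2 s, by omega,
      ?_, ?_, ?_, ?_, rfl⟩
    · intro q hq
      match q with
      | 0 => exact hhalf
      | (q + 1) => exact hα q (by omega)
    · apply successive_cons hαs
      intro q hq i hi j hj
      rw [hhs i hi]
      exact (hαi q hq j hj).1
    · intro i hi
      have hcard : ((range (D + 1)).image fun q => minS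
          (cons ((1 / ((2 : ℕ) : ℝ)) • Finsupp.single (bb k) 1) α q)).card ≤ D + 1 := by
        refine Finset.card_image_le.trans ?_
        rw [card_range]
      refine hcard.trans ?_
      obtain ⟨q, hq, rfl⟩ := mem_image.mp hi
      have hbbk : bb k = D + 1 := by rw [bb]
      rw [← hbbk]
      match q with
      | 0 =>
        have hne := av_nonempty hhalf
        have hm : minS ((1 / ((2 : ℕ) : ℝ)) • Finsupp.single (bb k) (1 : ℝ) : Vec) ∈
          ((1 / ((2 : ℕ) : ℝ)) • Finsupp.single (bb k) (1 : ℝ) : Vec).support := by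
          have : minS ((1 / ((2 : ℕ) : ℝ)) • Finsupp.single (bb k) (1 : ℝ) : Vec) ∈
            (((1 / ((2 : ℕ) : ℝ)) • Finsupp.single (bb k) (1 : ℝ) : Vec).support : Set ℕ) :=
            Nat.sInf_mem hne
          exact this
        exact (hhs _ hm).ge
      | (q + 1) =>
        have hq' : q < D := by
          have := mem_range.mp hq
          omega
        have hne := av_nonempty (hα q hq')
        have hm : minS (α q) ∈ (α q).support := by
          have : minS (α q) ∈ ((α q).support : Set ℕ) := Nat.sInf_mem hne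
          exact this
        exact (hαi q hq' _ hm).1.le
    · intro q hq
      match q with
      | 0 =>
        have h1 := hαS 0 (by omega)
        have h2 : maxS ((1 / ((2 : ℕ) : ℝ)) • Finsupp.single (bb k) (1 : ℝ) : Vec) ≤ bb k :=
          maxS_le fun i hi => (hhs i hi).le
        change 2 < s 0 ∧ maxS ((1 / ((2 : ℕ) : ℝ)) • Finsupp.single (bb k) (1 : ℝ) : Vec) < s 0
        omega
      | (q + 1) => exact hαg q (by omega)
  · intro i hi
    rw [sum_cons] at hi
    rcases mem_union.mp (Finsupp.support_add hi) with h | h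
    · have := Finsupp.support_single_subset (Finsupp.support_smul h)
      rw [mem_singleton] at this
      rw [this]
      exact ⟨bb_strictMono hNk, bb_strictMono.monotone hkK.le⟩
    · obtain ⟨t, ht, hit⟩ := sum_support h
      have h1 := hαi t ht i hit
      have h2 := bb_strictMono hNk
      exact ⟨by omega, h1.2⟩
  · rw [sum_cons, lift_add, pair_add_left, pair_add_right, pair_add_right]
    have h1 : pair (∑ q ∈ range D, α q) (lift bb (Finsupp.single k 1)) = 0 := by
      rw [pair_sum_left]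
      refine Finset.sum_eq_zero fun q hq => ?_
      refine pair_lift_zero' (K := k) (fun i hi => (hαi q (mem_range.mp hq) i hi).1) ?_
      intro j hj
      have := Finsupp.support_single_subset hj
      rw [mem_singleton] at this
      omega
    have h2 : pair ((1 / ((2 : ℕ) : ℝ)) • Finsupp.single (bb k) 1)
        (lift bb ((1 / (D : ℝ)) • w)) = 0 := by
      refine pair_lift_zero (K := k) ?_ ?_
      · intro i hi
        have := Finsupp.support_single_subset (Finsupp.support_smul hi)
        rw [mem_singleton] at this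
        omega
      · intro j hj
        exact (hw j (Finsupp.support_smul hj)).1
    have h3 : pair ((1 / ((2 : ℕ) : ℝ)) • Finsupp.single (bb k) 1)
        (lift bb (Finsupp.single k 1)) = 1 / 2 := by
      rw [lift_single, pair_single]
      simp
    have h4 : 1 + (m : ℝ) / 2 ≤ pair (∑ q ∈ range D, α q) (lift bb ((1 / (D : ℝ)) • w)) := by
      rw [lift_smul, pair_smul_right, one_div, ← div_eq_inv_mul, le_div_iff₀ hD0]
      linarith
    rw [h1, h2, h3]
    push_cast
    linarith

theorem SS_all : ∀ m, SS m := by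
  intro m
  induction m with
  | zero => exact SS_zero
  | succ m ih => exact SS_succ ih

/-! ### Conclusion -/

lemma pair_le (f : Vec) (hf : ∀ i, |f i| ≤ 1) (x : Vec) : pair f x ≤ x.sum fun _ c => |c| := by
  unfold pair Finsupp.sum
  refine Finset.sum_le_sum fun i _ => ?_
  calc f i * x i ≤ |f i * x i| := le_abs_self _
    _ = |f i| * |x i| := abs_mul _ _
    _ ≤ 1 * |x i| := mul_le_mul_of_nonneg_right (hf i) (abs_nonneg _)
    _ = |x i| := one_mul _

lemma nrm_bdd (x : Vec) : BddAbove ((fun f => pair f x) '' W n) := by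
  refine ⟨x.sum fun _ c => |c|, ?_⟩
  rintro _ ⟨f, hf, rfl⟩
  exact pair_le f (W_basic f hf).2.2 x

lemma le_nrm {f : Vec} (hf : f ∈ W n) (x : Vec) : pair f x ≤ nrm n x :=
  le_csSup (nrm_bdd x) ⟨f, hf, rfl⟩

lemma nrm_le {x : Vec} {c : ℝ} (h : ∀ f ∈ W n, pair f x ≤ c) : nrm n x ≤ c := by
  apply csSup_le
  · exact ⟨_, Finsupp.single 1 1, single_mem_W le_rfl, rfl⟩
  · rintro _ ⟨f, hf, rfl⟩
    exact h f hf

/-- **Main theorem.** In `X^1_{0,1}` there are interlaced subsequences `(e_{i_m})`, `(e_{j_m})` of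
the unit vector basis that are not equivalent. -/
theorem result : ∃ i j : ℕ → ℕ, StrictMono i ∧ StrictMono j ∧ (∀ m, 1 ≤ i m) ∧ (∀ m, 1 ≤ j m) ∧
    (∀ m, i m < j (m + 1)) ∧ (∀ m, j m < i (m + 1)) ∧ ¬ Equivalent 1 i j := by
  refine ⟨aa, bb, aa_strictMono, bb_strictMono, ?_, ?_, ?_, ?_, ?_⟩
  · intro m
    have := aa_ge m
    omega
  · intro m
    rw [bb]
    omega
  · intro m
    have h1 := aa_le_bb m
    have h2 := bb_strictMono (Nat.lt_succ_self m)
    exact lt_of_le_of_lt h1 h2
  · intro m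
    have := bb_eq m
    omega
  · rintro ⟨C, hC, h⟩
    obtain ⟨m, hm⟩ := exists_nat_gt (4 * C)
    obtain ⟨x, K, -, -, hx, -, F, hF, -, hFv⟩ := SS_all m 1 one_pos 0
    have h1 : nrm 1 (lift aa x) ≤ 1 + 1 := nrm_le hx
    have h2 : 1 + (m : ℝ) / 2 ≤ nrm 1 (lift bb x) := hFv.trans (le_nrm hF _)
    have h3 := (h x).1
    rw [comb_eq, comb_eq] at h3
    have hC0 : 0 < C := by linarith
    rw [inv_mul_le_iff₀ hC0] at h3
    nlinarith

end Pool.Agent.Results.MP_7cd5bf_an.NotEquivalent
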